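import Pool.Agent.Lib.MP_c8c16f_gt.Emb

set_option autoImplicit false

namespace Pool.Agent.Results.MP_c8c16f_gt.TightEmbeddings

open scoped InnerProductSpace

/-- the unit sphere -/
abbrev S2 := {x : Fin 3 → ℝ // ∑ j, x j ^ 2 = 1}

/-- the real projective plane -/
abbrev RP2 := Quot fun x y : S2 => x.1 = y.1 ∨ x.1 = -y.1

/-- Euclidean space -/
abbrev E (n : ℕ) := EuclideanSpace ℝ (Fin n)

/-- the Veronese map -/
noncomputable def ver (x : Fin 3 → ℝ) : E 6 :=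
  !₂[x 0 ^ 2, x 1 ^ 2, x 2 ^ 2, √2 * x 0 * x 1, √2 * x 0 * x 2, √2 * x 1 * x 2]

/-- the two piece property -/
def Tight (g : RP2 → E 4) : Prop :=
  Continuous g ∧ ∀ (a : E 4) (c : ℝ), IsPreconnected (g ⁻¹' {z | ⟪a, z⟫_ℝ ≤ c})

/-- linear on the simplices of a finite triangulation -/
def Polyhedral (g : RP2 → E 4) : Prop :=
  ∃ (m : ℕ) (K : Geometry.SimplicialComplex ℝ (Fin m → ℝ)) (h : K.space ≃ₜ RP2), K.faces.Finite ∧
    ∀ s ∈ K.faces, ∃ A : (Fin m → ℝ) →ᵃ[ℝ] E 4, ∀ y : K.space,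
      y.1 ∈ convexHull ℝ (s : Set (Fin m → ℝ)) → g (h y) = A y

open Lib.MP_c8c16f_gt in
theorem result (u : Fin 4 → E 6) (hu : Orthonormal ℝ u) (h0 : ∀ i, u i 0 + u i 1 + u i 2 = 0)
    (f : (Fin 3 → ℝ) → E 4) (hf : ∀ x i, f x i = ⟪u i, ver x⟫_ℝ)
    (imm : ∀ x : S2, ∀ w : Fin 3 → ℝ, ∑ j, x.1 j * w j = 0 → fderiv ℝ f x w = 0 → w = 0)
    (ε : ℝ) (hε : 0 < ε) : ∃ g : RP2 → E 4, Tight g ∧ Polyhedral g ∧ Function.Injective g ∧
      ∀ x : S2, dist (g (Quot.mk _ x)) (f x) < ε := by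
  let L := (EuclideanSpace.equiv (Fin 4) ℝ).symm
  have e : f = L ∘ fun x => proj (fun i k => u i k) (sym x x) := by
    funext x
    ext i
    rw [hf, PiLp.inner_apply]
    change _ = ∑ k, u i k * sym x x k
    refine Finset.sum_congr rfl fun k _ => ?_
    fin_cases k <;> simp [ver, sym] <;> ring
  obtain ⟨M⟩ := exists_model (fun i k => u i k) (fun i j => by
    rw [← orthonormal_iff_ite.1 hu i j, PiLp.inner_apply]; simp [mul_comm]) h0
    fun x hx w hw h => imm ⟨x, hx⟩ w hw (by rw [e, L.comp_fderiv]; simp [h])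
  obtain ⟨g, ⟨c, ⟨m, K, h, k1, k2⟩, i, t⟩, a⟩ := step_emb M (ε := ε / 3) (by positivity)
  refine ⟨L ∘ g, ⟨L.continuous.comp c, fun b r => ?_⟩, ⟨m, K, h, k1, fun s hs => ?_⟩,
    L.injective.comp i, fun x => ?_⟩
  · convert t b r using 1
    ext p
    simp [L, PiLp.inner_apply, mul_comm]
  · obtain ⟨A, hA⟩ := k2 s hs
    exact ⟨L.toLinearEquiv.toLinearMap.toAffineMap.comp A, fun y hy => congrArg L (hA y y.2 hy)⟩
  · have b := fun i => (norm_le_pi_norm _ i).trans (a x)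
    rw [e, EuclideanSpace.dist_eq, Real.sqrt_lt' hε]
    refine (Finset.sum_le_card_nsmul _ _ ((ε / 3) ^ 2) fun i _ =>
      pow_le_pow_left₀ dist_nonneg (b i) 2).trans_lt ?_
    simp; nlinarith

end Pool.Agent.Results.MP_c8c16f_gt.TightEmbeddings
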